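import Pool.Agent.H79.T.TI
import Pool.Agent.H79.T.TG

set_option autoImplicit false

/-!
# Prime pairs between consecutive squares: windows of length `N^(4/3 + ε)` on average over short intervals

For every `ε > 0` and almost all short intervals `[M, M + Y)`, `X^(1/3 + ε) ≤ Y ≤ X^(1 - ε)`, `X < M ≤ 2 X`, the number
of the `k` in `(u, v]` for which `N² + k + 1` and `(N + 1)² - k` are both prime has, on average over the `N` of the
interval, the value predicted by Hardy and Littlewood, for all windows with `v - u ≥ X Y (log X)^(A + 7)`,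
`v ≤ X Y (log X)^E` simultaneously. In particular, in almost all intervals of length `X^(1/3 + ε)` a positive proportion
(independent of `ε`) of the `N` has `k` between `2` and `N^(4/3 + 2 ε)` for which both numbers are prime.

Proof. The sum over the `N` of an interval of the differences of the counts for the primes and for the sieve model is the
integral of the product of two exponential sums over windows of length about `X Y` and of the quadratic exponential sum
over the interval, which is at most `δ Y` unless the frequency is at a distance at most `1 / (δ⁶ Y²)` (up to a constant)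
from a rational number with denominator at most `96 / δ²` (`Pool.Agent.H79.T.TA`, Weyl). On these arcs the mean square of
the exponential sum of `Λ - Λ_E` is bounded by the mean squares of the sums of `Λ - Λ_E` over progressions in intervals
of length about `δ⁶ Y²` (`TB`, `TC`). As `Y² ≥ (X²)^(1/3 + ε)`, the theorem on the primes in progressions in almost all
intervals of length `U^(1/3 + ε)` up to `U = 17 X²` shows that these mean squares are small near almost all of the numbers
`N²` (`TD`). The main term is the singular series for the sieve model on windows (`TE`, `TF`, `TH`). For the positive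
proportion, the counts are bounded by the large sieve, and the mean square of the product of `1 + 1 / p` over the prime
factors of `N² + N + 1` is bounded over intervals of length `X^(1/3)` (`TG`).
-/

namespace Pool.Agent.Results.MP_e94e4b_nt.BlocksFourThirds

open Finset

/-- the number of the `k` in `(u, v]` for which `N² + k + 1` and `(N + 1)² - k` are both prime -/
def pairs (N u v : ℕ) : ℕ :=
  ((Ioc u v).filter (fun k => (N ^ 2 + k + 1).Prime ∧ ((N + 1) ^ 2 - k).Prime)).card

/-- the factor of the singular series at `p`; `2 N² + 2 N + 2` is the sum of the two numbers -/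
noncomputable def factor (N p : ℕ) : ℝ :=
  (1 - (if p ∣ 2 * N ^ 2 + 2 * N + 2 then 1 else 2 : ℝ) / p) / (1 - 1 / (p : ℝ)) ^ 2

/-- the singular series, the product of the factors over all primes -/
noncomputable def singular (N : ℕ) : ℝ := ∏' p : Nat.Primes, factor N p

/-- the number predicted by Hardy and Littlewood -/
noncomputable def predicted (N u v : ℕ) : ℝ :=
  singular N * ∑ k ∈ Ioc u v, 1 / (Real.log ((N : ℝ) ^ 2 + k + 1) * Real.log (((N : ℝ) + 1) ^ 2 - k))

/-- The statement for the integers `N` with `M ≤ N < M + Y`: the numbers of the `k` are as predicted on average over `N`,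
for all windows `(u, v]` in question; and for a positive proportion of the `N` there are at least `c v / (log X)²`
numbers `k` in `(1, v]`. -/
def Good (c : ℝ) (A E X Y M : ℕ) : Prop :=
  (∀ u v : ℕ, u < v → (v : ℝ) ≤ X * Y * Real.log X ^ E → X * Y * Real.log X ^ (A + 7) ≤ (v : ℝ) - u →
    |∑ n ∈ range Y, ((pairs (M + n) u v : ℝ) - predicted (M + n) u v)| ≤ Y * ((v : ℝ) - u) / Real.log X ^ A) ∧
  ∀ v : ℕ, X * Y * Real.log X ^ (A + 7) ≤ (v : ℝ) → (v : ℝ) ≤ X * Y * Real.log X ^ E →
    c * Y ≤ (Set.ncard {N : ℕ | M ≤ N ∧ N < M + Y ∧ c * v / Real.log X ^ 2 ≤ pairs N 1 v} : ℝ)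

lemma pairs_eq (N u v : ℕ) : H79.V.cc (H79.V.PN N) (N ^ 2 + 1 + u) (N ^ 2 + 1 + v) = pairs N u v := by
  unfold H79.V.cc H79.V.PN pairs
  symm
  refine card_bij (fun k _ => N ^ 2 + 1 + k) ?_ ?_ ?_
  · intro k hk
    rw [mem_filter, mem_Ioc] at hk
    obtain ⟨⟨h1, h2⟩, h3, h4⟩ := hk
    rw [mem_filter, mem_Ioc]
    refine ⟨⟨by omega, by omega⟩, ?_, ?_⟩
    · have e1 : N ^ 2 + 1 + k = N ^ 2 + k + 1 := by ring
      rw [e1]; exact h3
    · have e1 : 2 * N ^ 2 + 2 * N + 2 - (N ^ 2 + 1 + k) = (N + 1) ^ 2 - k := by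
        have : (N + 1) ^ 2 = N ^ 2 + 2 * N + 1 := by ring
        omega
      rw [e1]; exact h4
  · intro a _ b _ h
    simpa using h
  · intro m hm
    rw [mem_filter, mem_Ioc] at hm
    obtain ⟨⟨h1, h2⟩, h3, h4⟩ := hm
    refine ⟨m - (N ^ 2 + 1), ?_, by omega⟩
    rw [mem_filter, mem_Ioc]
    refine ⟨⟨by omega, by omega⟩, ?_, ?_⟩
    · have e1 : N ^ 2 + (m - (N ^ 2 + 1)) + 1 = m := by omega
      rw [e1]; exact h3
    · have e1 : (N + 1) ^ 2 - (m - (N ^ 2 + 1)) = 2 * N ^ 2 + 2 * N + 2 - m := by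
        have : (N + 1) ^ 2 = N ^ 2 + 2 * N + 1 := by ring
        omega
      rw [e1]; exact h4

lemma sum_eq (N u v : ℕ) (hv : v ≤ (N + 1) ^ 2) :
    ∑ m ∈ Ioc (N ^ 2 + 1 + u) (N ^ 2 + 1 + v), H79.V.wt (H79.V.PN N) m =
      ∑ k ∈ Ioc u v, 1 / (Real.log ((N : ℝ) ^ 2 + k + 1) * Real.log (((N : ℝ) + 1) ^ 2 - k)) := by
  symm
  refine sum_bij (fun k _ => N ^ 2 + 1 + k) ?_ ?_ ?_ ?_
  · intro k hk
    rw [mem_Ioc] at hk ⊢
    omega
  · intro a _ b _ h
    simpa using h
  · intro m hm
    rw [mem_Ioc] at hm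
    exact ⟨m - (N ^ 2 + 1), by rw [mem_Ioc]; omega, by omega⟩
  · intro k hk
    rw [mem_Ioc] at hk
    unfold H79.V.wt H79.V.PN
    have e1 : 2 * N ^ 2 + 2 * N + 2 - (N ^ 2 + 1 + k) = (N + 1) ^ 2 - k := by
      have : (N + 1) ^ 2 = N ^ 2 + 2 * N + 1 := by ring
      omega
    rw [e1, Nat.cast_sub (by omega)]
    push_cast
    rw [show (N : ℝ) ^ 2 + 1 + k = (N : ℝ) ^ 2 + k + 1 by ring]

lemma SS_val (N u v : ℕ) (hv : v ≤ (N + 1) ^ 2) :
    H79.V.SS (H79.V.PN N) (H79.V.sgP (H79.V.PN N)) (N ^ 2 + 1 + u) (N ^ 2 + 1 + v) = (pairs N u v : ℝ) - predicted N u v := by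
  rw [H79.V.SS_eq, pairs_eq, sum_eq N u v hv]
  rfl

/-- a positive proportion from the first two moments -/
lemma prop_pos (Y : ℕ) (a : ℕ → ℝ) (m c₁ C₂ : ℝ) (hm : 0 < m) (hc : 0 < c₁) (hC : 0 < C₂)
    (h1 : c₁ * (Y * m) ≤ ∑ n ∈ range Y, a n) (h2 : ∑ n ∈ range Y, a n ^ 2 ≤ C₂ * (Y * m ^ 2)) :
    c₁ ^ 2 / (4 * C₂) * Y ≤ (((range Y).filter (fun n => c₁ / 2 * m ≤ a n)).card : ℝ) := by
  set G := (range Y).filter (fun n => c₁ / 2 * m ≤ a n) with hG
  rcases Nat.eq_zero_or_pos Y with h0 | h0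
  · rw [h0, Nat.cast_zero, mul_zero]
    exact Nat.cast_nonneg _
  have hY0 : (0 : ℝ) < Y := by exact_mod_cast h0
  have e1 : ∑ n ∈ range Y, a n = ∑ n ∈ G, a n + ∑ n ∈ (range Y).filter (fun n => ¬ c₁ / 2 * m ≤ a n), a n := by
    rw [hG, sum_filter_add_sum_filter_not]
  have e2 : ∑ n ∈ (range Y).filter (fun n => ¬ c₁ / 2 * m ≤ a n), a n ≤ Y * (c₁ / 2 * m) := by
    calc ∑ n ∈ (range Y).filter (fun n => ¬ c₁ / 2 * m ≤ a n), a n ≤
          ∑ _n ∈ (range Y).filter (fun n => ¬ c₁ / 2 * m ≤ a n), c₁ / 2 * m :=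
          sum_le_sum fun n hn => (not_le.1 (mem_filter.1 hn).2).le
      _ = (((range Y).filter (fun n => ¬ c₁ / 2 * m ≤ a n)).card : ℝ) * (c₁ / 2 * m) := by rw [sum_const, nsmul_eq_mul]
      _ ≤ Y * (c₁ / 2 * m) := by
          apply mul_le_mul_of_nonneg_right _ (by positivity)
          have := card_filter_le (range Y) (fun n => ¬ c₁ / 2 * m ≤ a n)
          rw [card_range] at this
          exact_mod_cast this
  have e3 : c₁ / 2 * (Y * m) ≤ ∑ n ∈ G, a n := by
    have : Y * (c₁ / 2 * m) = c₁ / 2 * (Y * m) := by ring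
    linarith
  have e4 : (∑ n ∈ G, a n) ^ 2 ≤ (G.card : ℝ) * ∑ n ∈ G, a n ^ 2 := sq_sum_le_card_mul_sum_sq
  have e5 : ∑ n ∈ G, a n ^ 2 ≤ C₂ * (Y * m ^ 2) :=
    (sum_le_sum_of_subset_of_nonneg (filter_subset _ _) fun _ _ _ => sq_nonneg _).trans h2
  have e6 : (c₁ / 2 * (Y * m)) ^ 2 ≤ (G.card : ℝ) * (C₂ * (Y * m ^ 2)) :=
    (pow_le_pow_left₀ (by positivity) e3 2).trans (e4.trans (mul_le_mul_of_nonneg_left e5 (Nat.cast_nonneg _)))
  have e7 : (c₁ ^ 2 / (4 * C₂) * Y) * (C₂ * (Y * m ^ 2)) ≤ (G.card : ℝ) * (C₂ * (Y * m ^ 2)) := by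
    refine le_trans (le_of_eq ?_) e6
    field_simp
    ring
  exact le_of_mul_le_mul_right e7 (by positivity)

/-- **Almost all short intervals.** There is `c > 0` such that for all `ε > 0`, all `A`, `E`, all `X ≥ X₀(ε, A, E)` and all
`Y` with `X^(1/3 + ε) ≤ Y ≤ X^(1 - ε)` the statement `Good c A E X Y M` holds for all but at most `X / (log X)^A` of the
`M` in `(X, 2 X]`. The singular series is at least `c`, and its product converges absolutely. -/
theorem result : ∃ c : ℝ, 0 < c ∧ (∀ N : ℕ, c ≤ singular N ∧ Multipliable (fun p : Nat.Primes => factor N p)) ∧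
    ∀ ε : ℝ, 0 < ε → ∀ A E : ℕ, ∃ X₀ : ℕ, ∀ X : ℕ, X₀ ≤ X → ∀ Y : ℕ, (X : ℝ) ^ (1 / 3 + ε) ≤ Y → (Y : ℝ) ≤ (X : ℝ) ^ (1 - ε) →
      (Set.ncard {M : ℕ | X < M ∧ M ≤ 2 * X ∧ ¬ Good c A E X Y M} : ℝ) ≤ X / Real.log X ^ A := by
  classical
  obtain ⟨c₀, hc₀, hsg⟩ := H79.V.sgP_low
  have hlow : ∀ N : ℕ, c₀ ≤ singular N ∧ Multipliable (fun p : Nat.Primes => factor N p) := by
    intro N
    exact hsg (H79.V.PN N) (by unfold H79.V.PN; omega) ⟨N ^ 2 + N + 1, by unfold H79.V.PN; ring⟩
  obtain ⟨C, hC, hup⟩ := H79.T.pairs_up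
  obtain ⟨C₃, hC₃, hmom⟩ := H79.T.mom2 7
  set c₁ : ℝ := c₀ / 36 with hc₁
  have hc₁0 : 0 < c₁ := by positivity
  set C₂ : ℝ := C ^ 2 * C₃ with hC₂
  have hC₂0 : 0 < C₂ := by positivity
  set c : ℝ := min c₀ (min (c₁ / 2) (c₁ ^ 2 / (4 * C₂))) with hc
  have hc0 : 0 < c := lt_min hc₀ (lt_min (by positivity) (by positivity))
  have hcc₀ : c ≤ c₀ := min_le_left _ _
  have hcc₁ : c ≤ c₁ / 2 := (min_le_right _ _).trans (min_le_left _ _)
  have hcc₂ : c ≤ c₁ ^ 2 / (4 * C₂) := (min_le_right _ _).trans (min_le_right _ _)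
  refine ⟨c, hc0, fun N => ⟨hcc₀.trans (hlow N).1, (hlow N).2⟩, ?_⟩
  intro ε hε A E
  obtain ⟨X₁, h1⟩ := H79.T.main ε hε (A + 3) E
  obtain ⟨X₂, h2⟩ := H373R2.T7.ev_L' (100 + 18 / c₀)
  obtain ⟨X₃, h3⟩ := H79.T.grow (1 / 3) (by norm_num) 1 1
  obtain ⟨X₄, h4⟩ := H79.T.grow ε hε (E + 1) 1
  refine ⟨max X₁ (max X₂ (max X₃ (max X₄ 16))), ?_⟩
  intro X hX Y hY1 hY2
  have c1 : X₁ ≤ X := (le_max_left _ _).trans hX
  have c2 : X₂ ≤ X := ((le_max_left _ _).trans (le_max_right _ _)).trans hX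
  have c345 : max X₃ (max X₄ 16) ≤ X := ((le_max_right _ _).trans (le_max_right _ _)).trans hX
  have c3 : X₃ ≤ X := (le_max_left _ _).trans c345
  have c4 : X₄ ≤ X := ((le_max_left _ _).trans (le_max_right _ _)).trans c345
  have c5 : 16 ≤ X := ((le_max_right _ _).trans (le_max_right _ _)).trans c345
  have hL := h2 X c2
  have g3 := h3 X c3
  have g4 := h4 X c4
  have hmain := h1 X c1 Y hY1 hY2
  set L : ℝ := Real.log X with hLdef
  have hc18 : 0 < 18 / c₀ := by positivity
  have hL100 : (100 : ℝ) ≤ L := by linarith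
  have hL0 : 0 < L := by linarith
  have hL1 : 1 ≤ L := by linarith
  have hLc : 18 / c₀ ≤ L := by linarith
  have hX16 : (16 : ℝ) ≤ X := by exact_mod_cast c5
  have hX0 : (0 : ℝ) < X := by linarith
  have hX1 : (1 : ℝ) ≤ X := by linarith
  rw [one_mul, pow_one] at g3
  rw [one_mul] at g4
  have hY0 : (0 : ℝ) < Y := lt_of_lt_of_le (by positivity) hY1
  have hYX13 : (X : ℝ) ^ (1 / 3 : ℝ) ≤ Y := by
    refine le_trans ?_ hY1
    exact Real.rpow_le_rpow_of_exponent_le hX1 (by linarith)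
  have hY100 : (100 : ℝ) ≤ Y := hL100.trans (g3.trans hYX13)
  have hYXε : (Y : ℝ) * (X : ℝ) ^ ε ≤ X := by
    calc (Y : ℝ) * (X : ℝ) ^ ε ≤ (X : ℝ) ^ (1 - ε) * (X : ℝ) ^ ε := by gcongr
      _ = X := by rw [← Real.rpow_add hX0, sub_add_cancel, Real.rpow_one]
  have hYXE : (Y : ℝ) * L ^ (E + 1) ≤ X := (mul_le_mul_of_nonneg_left g4 hY0.le).trans hYXε
  have hkey : ∀ M : ℕ, X < M → M + Y ≤ 2 * X → H79.T.BW (A + 3) E X Y M → Good c A E X Y M := by
    intro M hM1 hM2 hB
    -- the windows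
    have hwin : ∀ u v : ℕ, u < v → (v : ℝ) ≤ X * Y * L ^ E → X * Y * L ^ (A + 6) ≤ (v : ℝ) - u →
        |∑ n ∈ range Y, ((pairs (M + n) u v : ℝ) - predicted (M + n) u v)| ≤ Y * ((v : ℝ) - u) / L ^ (A + 3) := by
      intro u v huv hvE hlen
      have e1 := hB u v huv hvE hlen
      have hvX : (v : ℝ) ≤ (X : ℝ) ^ 2 := by
        have e2 : (X : ℝ) * Y * L ^ E ≤ X * (Y * L ^ (E + 1)) := by
          rw [pow_succ]
          have : (0 : ℝ) < X * Y * L ^ E := by positivity
          nlinarith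
        calc (v : ℝ) ≤ X * Y * L ^ E := hvE
          _ ≤ X * (Y * L ^ (E + 1)) := e2
          _ ≤ X * X := by gcongr
          _ = _ := by ring
      have hvX' : v ≤ X ^ 2 := by exact_mod_cast hvX
      have e3 : ∀ n ∈ range Y, H79.V.SS (H79.V.PN (M + n)) (H79.V.sgP (H79.V.PN (M + n))) ((M + n) ^ 2 + 1 + u) ((M + n) ^ 2 + 1 + v) =
          (pairs (M + n) u v : ℝ) - predicted (M + n) u v := by
        intro n _
        apply SS_val
        have : X ^ 2 ≤ (M + n + 1) ^ 2 := Nat.pow_le_pow_left (by omega) 2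
        omega
      rw [sum_congr rfl e3] at e1
      exact e1
    refine ⟨?_, ?_⟩
    · intro u v huv hvE hlen
      have huv' : (0 : ℝ) < (v : ℝ) - u := by
        have : (u : ℝ) < v := by exact_mod_cast huv
        linarith
      refine (hwin u v huv hvE (le_trans ?_ hlen)).trans ?_
      · apply mul_le_mul_of_nonneg_left _ (by positivity)
        exact pow_le_pow_right₀ hL1 (by omega)
      · apply div_le_div_of_nonneg_left (by positivity) (by positivity)
        exact pow_le_pow_right₀ hL1 (by omega)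
    · intro v hv1 hvE
      have hXYbig : (X : ℝ) * 100 ≤ X * Y := by gcongr
      have hXY1 : (1600 : ℝ) ≤ X * Y := by nlinarith
      have hv2 : X * Y * L ^ (A + 6) ≤ (v : ℝ) - 1 := by
        have e1 : X * Y * L ^ (A + 7) = L * (X * Y * L ^ (A + 6)) := by
          rw [show A + 7 = (A + 6) + 1 by ring, pow_succ]
          ring
        have e2 : (1 : ℝ) ≤ L ^ (A + 6) := one_le_pow₀ hL1
        have e3 : (X : ℝ) * Y ≤ X * Y * L ^ (A + 6) := le_mul_of_one_le_right (by positivity) e2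
        nlinarith
      have hvXY : (X : ℝ) * Y ≤ (v : ℝ) - 1 := by
        refine le_trans ?_ hv2
        exact le_mul_of_one_le_right (by positivity) (one_le_pow₀ hL1)
      have hv1600 : (1600 : ℝ) ≤ (v : ℝ) - 1 := by linarith
      have h1v : 1 < v := by
        have : (1 : ℝ) < v := by linarith
        exact_mod_cast this
      have hw := hwin 1 v h1v hvE (by push_cast; exact hv2)
      push_cast at hw
      have hvX : 100 * (v : ℝ) ≤ (X : ℝ) ^ 2 := by
        have e2 : (X : ℝ) * Y * L ^ E * 100 ≤ X * (Y * L ^ (E + 1)) := by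
          rw [pow_succ]
          have : (0 : ℝ) < X * Y * L ^ E := by positivity
          nlinarith
        calc 100 * (v : ℝ) ≤ 100 * (X * Y * L ^ E) := by gcongr
          _ = (X : ℝ) * Y * L ^ E * 100 := by ring
          _ ≤ X * (Y * L ^ (E + 1)) := e2
          _ ≤ X * X := by gcongr
          _ = _ := by ring
      have hvX' : 100 * v ≤ X ^ 2 := by exact_mod_cast hvX
      have hMn : ∀ n ∈ range Y, (X : ℝ) ≤ ((M + n : ℕ) : ℝ) ∧ ((M + n : ℕ) : ℝ) ≤ 2 * X := by
        intro n hn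
        rw [mem_range] at hn
        constructor
        · exact_mod_cast (by omega : X ≤ M + n)
        · exact_mod_cast (by omega : M + n ≤ 2 * X)
      -- lower bound for the predictions
      have hpred : ∀ n ∈ range Y, c₀ * (((v : ℝ) - 1) / (9 * L ^ 2)) ≤ predicted (M + n) 1 v := by
        intro n hn
        obtain ⟨k1, k2⟩ := hMn n hn
        set N : ℕ := M + n with hN
        unfold predicted
        have hlg : ∀ x : ℝ, 3 ≤ x → x ≤ (X : ℝ) ^ 3 → 0 < Real.log x ∧ Real.log x ≤ 3 * L := by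
          intro x h3x hx3
          refine ⟨Real.log_pos (by linarith), ?_⟩
          have e1 := Real.log_le_log (by linarith) hx3
          rw [Real.log_pow] at e1
          push_cast at e1
          exact e1
        have hX3 : 16 * (X : ℝ) ^ 2 ≤ (X : ℝ) ^ 3 := by nlinarith
        have f1 : ((v : ℝ) - 1) / (9 * L ^ 2) ≤
            ∑ k ∈ Ioc 1 v, 1 / (Real.log ((N : ℝ) ^ 2 + k + 1) * Real.log (((N : ℝ) + 1) ^ 2 - k)) := by
          have f2 : ∀ k ∈ Ioc 1 v, 1 / (9 * L ^ 2) ≤
              1 / (Real.log ((N : ℝ) ^ 2 + k + 1) * Real.log (((N : ℝ) + 1) ^ 2 - k)) := by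
            intro k hk
            rw [mem_Ioc] at hk
            have g1 : (k : ℝ) ≤ v := by exact_mod_cast hk.2
            have g2 : (0 : ℝ) ≤ k := Nat.cast_nonneg k
            have g3 : (N : ℝ) ^ 2 ≤ 4 * (X : ℝ) ^ 2 := by nlinarith
            have g4 : (X : ℝ) ^ 2 ≤ (N : ℝ) ^ 2 := by nlinarith
            have g5 : (256 : ℝ) ≤ (X : ℝ) ^ 2 := by nlinarith
            have g6 : (N : ℝ) ≤ (X : ℝ) ^ 2 := by nlinarith
            obtain ⟨p1, p2⟩ := hlg ((N : ℝ) ^ 2 + k + 1) (by linarith) (by linarith)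
            obtain ⟨p3, p4⟩ := hlg (((N : ℝ) + 1) ^ 2 - k) (by nlinarith) (by nlinarith)
            apply one_div_le_one_div_of_le (mul_pos p1 p3)
            calc Real.log ((N : ℝ) ^ 2 + k + 1) * Real.log (((N : ℝ) + 1) ^ 2 - k) ≤ (3 * L) * (3 * L) :=
                  mul_le_mul p2 p4 p3.le (by positivity)
              _ = 9 * L ^ 2 := by ring
          refine le_trans ?_ (sum_le_sum f2)
          rw [sum_const, Nat.card_Ioc, nsmul_eq_mul, Nat.cast_sub (by omega)]
          push_cast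
          apply le_of_eq
          ring
        exact mul_le_mul (hlow N).1 f1 (by
          apply div_nonneg (by linarith) (by positivity)) (hc₀.le.trans (hlow N).1)
      have hv0 : (0 : ℝ) < v := by linarith
      -- the first moment
      have m1 : c₁ * (Y * (v / L ^ 2)) ≤ ∑ n ∈ range Y, (pairs (M + n) 1 v : ℝ) := by
        have e1 : Y * (c₀ * (((v : ℝ) - 1) / (9 * L ^ 2))) ≤ ∑ n ∈ range Y, predicted (M + n) 1 v := by
          refine le_trans (le_of_eq ?_) (sum_le_sum hpred)
          rw [sum_const, card_range, nsmul_eq_mul]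
        rw [sum_sub_distrib] at hw
        have e2 := (abs_le.1 hw).1
        have e3 : Y * ((v : ℝ) - 1) / L ^ (A + 3) ≤ Y * (c₀ * (((v : ℝ) - 1) / (18 * L ^ 2))) := by
          calc Y * ((v : ℝ) - 1) / L ^ (A + 3) ≤ Y * ((v : ℝ) - 1) / L ^ 3 := by
                apply div_le_div_of_nonneg_left (by nlinarith) (by positivity)
                exact pow_le_pow_right₀ hL1 (by omega)
            _ = (18 / c₀) / L * (Y * (c₀ * (((v : ℝ) - 1) / (18 * L ^ 2)))) := by
                field_simp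
            _ ≤ 1 * (Y * (c₀ * (((v : ℝ) - 1) / (18 * L ^ 2)))) := by
                apply mul_le_mul_of_nonneg_right
                · rw [div_le_one hL0]; exact hLc
                · have : 0 ≤ ((v : ℝ) - 1) / (18 * L ^ 2) := div_nonneg (by linarith) (by positivity)
                  positivity
            _ = _ := one_mul _
        have e4 : Y * (c₀ * (((v : ℝ) - 1) / (9 * L ^ 2))) - Y * (c₀ * (((v : ℝ) - 1) / (18 * L ^ 2))) =
            Y * c₀ / (18 * L ^ 2) * ((v : ℝ) - 1) := by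
          field_simp
          ring
        have e5 : c₁ * (Y * (v / L ^ 2)) = Y * c₀ / (18 * L ^ 2) * ((v : ℝ) / 2) := by
          rw [hc₁]
          field_simp
          norm_num
        have e6 : Y * c₀ / (18 * L ^ 2) * ((v : ℝ) / 2) ≤ Y * c₀ / (18 * L ^ 2) * ((v : ℝ) - 1) := by
          apply mul_le_mul_of_nonneg_left (by linarith) (by positivity)
        linarith
      -- the second moment
      have m2 : ∑ n ∈ range Y, (pairs (M + n) 1 v : ℝ) ^ 2 ≤ C₂ * (Y * (v / L ^ 2) ^ 2) := by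
        have e1 : ∀ n ∈ range Y, (pairs (M + n) 1 v : ℝ) ^ 2 ≤ (C * (v / L ^ 2)) ^ 2 * H79.T.P1 (M + n) ^ 2 := by
          intro n hn
          have f1 := hup (M + n) 1 (v - 1) (by
            have : (2 : ℝ) ≤ ((v - 1 : ℕ) : ℝ) := by
              rw [Nat.cast_sub h1v.le]
              push_cast
              linarith
            exact_mod_cast this) (by
            have : X ^ 2 ≤ (M + n + 1) ^ 2 := Nat.pow_le_pow_left (by omega) 2
            omega)
          have f2 : 1 + (v - 1) = v := by omega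
          rw [f2] at f1
          have f3 : ((v - 1 : ℕ) : ℝ) = (v : ℝ) - 1 := by
            rw [Nat.cast_sub h1v.le]
            push_cast
            ring
          rw [f3] at f1
          have f4 : L ≤ Real.log ((v : ℝ) - 1) := by
            apply Real.log_le_log hX0
            nlinarith
          have hP0 : 0 ≤ H79.T.P1 (M + n) := by
            unfold H79.T.P1
            exact prod_nonneg fun p _ => by positivity
          have f5 : C * ((v : ℝ) - 1) / Real.log ((v : ℝ) - 1) ^ 2 ≤ C * (v / L ^ 2) := by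
            calc C * ((v : ℝ) - 1) / Real.log ((v : ℝ) - 1) ^ 2 ≤ C * v / L ^ 2 := by
                  apply div_le_div₀ (by positivity) _ (by positivity) (pow_le_pow_left₀ hL0.le f4 2)
                  apply mul_le_mul_of_nonneg_left (by linarith) hC.le
              _ = _ := by ring
          have f6 : (pairs (M + n) 1 v : ℝ) ≤ C * (v / L ^ 2) * H79.T.P1 (M + n) := by
            refine le_trans f1 ?_
            exact mul_le_mul_of_nonneg_right f5 hP0
          calc (pairs (M + n) 1 v : ℝ) ^ 2 ≤ (C * (v / L ^ 2) * H79.T.P1 (M + n)) ^ 2 := pow_le_pow_left₀ (Nat.cast_nonneg _) f6 2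
            _ = _ := by ring
        refine (sum_le_sum e1).trans ?_
        rw [← mul_sum]
        have e2 := hmom Y M (by
          have : (4 : ℝ) ≤ Y := by linarith
          exact_mod_cast this) (by
          intro n hn
          have f1 : (H79.T.Fq (M + n) : ℝ) < (Y : ℝ) ^ 7 := by
            have f2 : H79.T.Fq (M + n) ≤ 7 * X ^ 2 := by
              unfold H79.T.Fq
              have f3 : M + n ≤ 2 * X := by omega
              have f4 : (M + n) ^ 2 ≤ (2 * X) ^ 2 := Nat.pow_le_pow_left f3 2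
              have f5 : (2 * X) ^ 2 = 4 * X ^ 2 := by ring
              have f6 : 16 * X ≤ X ^ 2 := by nlinarith
              omega
            have f3 : (H79.T.Fq (M + n) : ℝ) ≤ 7 * (X : ℝ) ^ 2 := by exact_mod_cast f2
            have f4 : (X : ℝ) ^ 2 ≤ (Y : ℝ) ^ 6 := by
              calc (X : ℝ) ^ 2 = ((X : ℝ) ^ (1 / 3 : ℝ)) ^ 6 := by
                    rw [← Real.rpow_natCast ((X : ℝ) ^ (1 / 3 : ℝ)) 6, ← Real.rpow_mul hX0.le, ← Real.rpow_natCast]
                    norm_num
                _ ≤ (Y : ℝ) ^ 6 := pow_le_pow_left₀ (by positivity) hYX13 6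
            have f5 : (0 : ℝ) < (Y : ℝ) ^ 6 := by positivity
            calc (H79.T.Fq (M + n) : ℝ) ≤ 7 * (X : ℝ) ^ 2 := f3
              _ ≤ 7 * (Y : ℝ) ^ 6 := by gcongr
              _ < Y * (Y : ℝ) ^ 6 := by
                  apply mul_lt_mul_of_pos_right _ f5
                  linarith
              _ = _ := by ring
          exact_mod_cast f1)
        calc (C * (v / L ^ 2)) ^ 2 * ∑ n ∈ range Y, H79.T.P1 (M + n) ^ 2 ≤ (C * (v / L ^ 2)) ^ 2 * (C₃ * Y) := by gcongr
          _ = _ := by rw [hC₂]; ring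
      have hpp := prop_pos Y (fun n => (pairs (M + n) 1 v : ℝ)) (v / L ^ 2) c₁ C₂ (by positivity) hc₁0 hC₂0 m1 m2
      have e1 : (((range Y).filter (fun n => c₁ / 2 * (v / L ^ 2) ≤ (pairs (M + n) 1 v : ℝ))).image (fun n => M + n) : Finset ℕ) =
          (((range Y).filter (fun n => c₁ / 2 * (v / L ^ 2) ≤ (pairs (M + n) 1 v : ℝ))).image (fun n => M + n)) := rfl
      have e2 : ((((range Y).filter (fun n => c₁ / 2 * (v / L ^ 2) ≤ (pairs (M + n) 1 v : ℝ))).image (fun n => M + n) : Finset ℕ) : Set ℕ) ⊆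
          {N : ℕ | M ≤ N ∧ N < M + Y ∧ c * v / L ^ 2 ≤ pairs N 1 v} := by
        intro N hN
        rw [mem_coe, mem_image] at hN
        obtain ⟨n, hn, rfl⟩ := hN
        rw [mem_filter, mem_range] at hn
        rw [Set.mem_ofPred_eq]
        refine ⟨by omega, by omega, ?_⟩
        refine le_trans ?_ hn.2
        rw [mul_div_assoc]
        apply mul_le_mul_of_nonneg_right hcc₁ (by positivity)
      have hfin : {N : ℕ | M ≤ N ∧ N < M + Y ∧ c * v / L ^ 2 ≤ pairs N 1 v}.Finite := by
        apply Set.Finite.subset (Set.finite_Iio (M + Y))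
        intro N hN
        exact hN.2.1
      have e3 := Set.ncard_le_ncard e2 hfin
      rw [Set.ncard_coe_finset, card_image_of_injective _ (add_right_injective M)] at e3
      calc c * Y ≤ c₁ ^ 2 / (4 * C₂) * Y := mul_le_mul_of_nonneg_right hcc₂ hY0.le
        _ ≤ _ := hpp
        _ ≤ _ := by exact_mod_cast e3
  have hsub : {M : ℕ | X < M ∧ M ≤ 2 * X ∧ ¬ Good c A E X Y M} ⊆
      (((Ioc X (2 * X)).filter (fun N => ¬ (N + Y ≤ 2 * X ∧ H79.T.BW (A + 3) E X Y N)) : Finset ℕ) : Set ℕ) := by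
    intro M hM
    rw [Set.mem_ofPred_eq] at hM
    rw [mem_coe, mem_filter, mem_Ioc]
    exact ⟨⟨hM.1, hM.2.1⟩, fun h => hM.2.2 (hkey M hM.1 h.1 h.2)⟩
  have e1 := Set.ncard_le_ncard hsub (Finset.finite_toSet _)
  rw [Set.ncard_coe_finset] at e1
  have e2 : (Set.ncard {M : ℕ | X < M ∧ M ≤ 2 * X ∧ ¬ Good c A E X Y M} : ℝ) ≤
      (((Ioc X (2 * X)).filter (fun N => ¬ (N + Y ≤ 2 * X ∧ H79.T.BW (A + 3) E X Y N))).card : ℝ) := by exact_mod_cast e1
  refine e2.trans ((le_trans (le_of_eq (by congr)) hmain).trans ?_)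
  apply div_le_div_of_nonneg_left (by positivity) (by positivity)
  exact pow_le_pow_right₀ hL1 (by omega)

end Pool.Agent.Results.MP_e94e4b_nt.BlocksFourThirds
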