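import Pool.Agent.H14.SK.Shift2
import Pool.Agent.H14.VC.Lin

/-!
# The pairs `N ^ 2 + k + 1`, `(N + 1) ^ 2 - k` of almost primes with `k` in a translate of a difference set
-/

set_option autoImplicit false

namespace Pool.Agent.Results.MP_e94e4b_nt.DifferenceSets

open Finset
open Pool.Agent.H14.SK

/-- all prime factors of the integer `m` are larger than `y` and there are at most `r` of them, counted
with multiplicity -/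
def AlmostPrime (y : ℝ) (r : ℕ) (m : ℤ) : Prop :=
  (∀ p : ℕ, p.Prime → (p : ℤ) ∣ m → y < p) ∧ ArithmeticFunction.cardFactors m.natAbs ≤ r

/-- the product of `(p - 1) / (p - 2)` over the odd prime factors of `d` -/
noncomputable def G (d : ℕ) : ℝ :=
  ∏ p ∈ d.primeFactors.filter (fun p => 3 ≤ p), ((p : ℝ) - 1) / ((p : ℝ) - 2)

open Classical in
/-- sets of density at least `(log M) ^ (-1 + ε)` -/
theorem dense (θ : ℝ) (hθ : 0 < θ) : ∃ (κ : ℝ) (r : ℕ), 0 < κ ∧ ∀ ε : ℝ, 0 < ε → ∃ (C : ℝ) (N₀ : ℕ), 0 < C ∧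
    ∀ N M u : ℕ, N₀ ≤ N → (N : ℝ) ^ θ ≤ M → 2 ≤ u → u + 2 * M ≤ 2 * N →
    ∀ α : ℝ, 0 < α → α ≤ 1 → Real.log M ^ (-(1 - ε)) ≤ α →
    ∃ h : ℕ, (h : ℝ) ≤ Real.exp (C * α ^ (-(1 + ε))) ∧ h ≤ M ∧ ∀ A : Finset ℕ, A ⊆ Icc 1 M → α * M ≤ A.card →
      Real.exp (-(C * α ^ (-(1 + ε)))) * (G (N ^ 2 + N + 1) * M ^ 2 / Real.log M ^ 2) ≤
        (((A ×ˢ A).filter (fun x => x.1 < x.2 ∧
          AlmostPrime ((N : ℝ) ^ κ) r ((N : ℤ) ^ 2 + (u + ((x.2 : ℤ) - x.1 + h)) + 1) ∧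
          AlmostPrime ((N : ℝ) ^ κ) r (((N : ℤ) + 1) ^ 2 - (u + ((x.2 : ℤ) - x.1 + h))))).card : ℝ) := by
  obtain ⟨κ, hκ, hS⟩ := sum_pair
  obtain ⟨B, hB⟩ : ∃ B : ℕ, 4 / θ ≤ B := exists_nat_ge _
  obtain ⟨r, hr⟩ := hS B
  refine ⟨θ * κ, r, by positivity, ?_⟩
  intro ε hε
  obtain ⟨C, N₁, hC, hN₁⟩ := hr ε hε
  obtain ⟨N₂, hN₂⟩ := Filter.eventually_atTop.1
    (((tendsto_rpow_atTop hθ).comp tendsto_natCast_atTop_atTop).eventually_ge_atTop ((max N₁ 3 : ℕ) : ℝ))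
  refine ⟨C, max N₂ 3, hC, ?_⟩
  intro N M u hN hM hu huM α hα hα1 hαL
  have hN3 : 3 ≤ N := (le_max_right _ _).trans hN
  have hNr : (3 : ℝ) ≤ N := by exact_mod_cast hN3
  have hM1 : ((max N₁ 3 : ℕ) : ℝ) ≤ M := (hN₂ N ((le_max_left _ _).trans hN)).trans hM
  have hM2 : max N₁ 3 ≤ M := by exact_mod_cast hM1
  have hM3 : 3 ≤ M := (le_max_right _ _).trans hM2
  have hpow : (N : ℝ) ^ (4 : ℝ) ≤ (M : ℝ) ^ B := by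
    calc (N : ℝ) ^ (4 : ℝ) = ((N : ℝ) ^ θ) ^ (4 / θ) := by
          rw [← Real.rpow_mul (by positivity)]
          congr 1
          field_simp
      _ ≤ (M : ℝ) ^ (4 / θ) := Real.rpow_le_rpow (by positivity) hM (by positivity)
      _ ≤ (M : ℝ) ^ (B : ℝ) :=
          Real.rpow_le_rpow_of_exponent_le (by exact_mod_cast (by omega : 1 ≤ M)) hB
      _ = (M : ℝ) ^ B := Real.rpow_natCast _ _
  have hpow2 : N ^ 4 ≤ M ^ B := by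
    have : (N : ℝ) ^ 4 ≤ (M : ℝ) ^ B := by
      have h4 : (N : ℝ) ^ (4 : ℝ) = (N : ℝ) ^ 4 := by
        rw [← Real.rpow_natCast (N : ℝ) 4]
        norm_num
      rw [← h4]
      exact hpow
    exact_mod_cast this
  have huv : (N ^ 2 + 1 + u) + ((N + 1) ^ 2 - u) = 2 * (N ^ 2 + N + 1) := by
    have h1 : u ≤ (N + 1) ^ 2 := by nlinarith
    have h2 : (N + 1) ^ 2 = N ^ 2 + 2 * N + 1 := by ring
    omega
  have hle : (N ^ 2 + 1 + u) + ((N + 1) ^ 2 - u) ≤ M ^ B := by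
    rw [huv]
    refine le_trans ?_ hpow2
    have h1 : N ^ 2 * 9 ≤ N ^ 2 * N ^ 2 := Nat.mul_le_mul_left _ (by nlinarith)
    have h2 : N ^ 4 = N ^ 2 * N ^ 2 := by ring
    have h3 : N + 1 ≤ N ^ 2 := by nlinarith
    rw [h2]
    omega
  obtain ⟨h, h1, h2, h3⟩ := hN₁ M ((le_max_left _ _).trans hM2) α hα hα1 hαL (N ^ 2 + 1 + u)
    ((N + 1) ^ 2 - u) (by omega) hle (N ^ 2 + N + 1) (by positivity) huv.symm
  refine ⟨h, h1, h2, ?_⟩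
  intro A hA hcard
  refine (h3 A hA hcard).trans ?_
  apply Nat.cast_le.2
  apply card_le_card
  intro x hx
  rw [mem_filter] at hx ⊢
  obtain ⟨hx1, hlt, hx2, hx3⟩ := hx
  have hκM : (N : ℝ) ^ (θ * κ) ≤ (M : ℝ) ^ κ := by
    rw [Real.rpow_mul (by positivity)]
    exact Real.rpow_le_rpow (by positivity) hM hκ.le
  have hmono : ∀ m : ℤ, AP ((M : ℝ) ^ κ) r m → AlmostPrime ((N : ℝ) ^ (θ * κ)) r m := fun m hm =>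
    ⟨fun p hp hd => lt_of_le_of_lt hκM (hm.1 p hp hd), hm.2⟩
  refine ⟨hx1, hlt, ?_, ?_⟩
  · have e : (N : ℤ) ^ 2 + (u + ((x.2 : ℤ) - x.1 + h)) + 1 =
        ((N ^ 2 + 1 + u : ℕ) : ℤ) + ((x.2 : ℤ) - x.1 + h) := by
      push_cast
      ring
    rw [e]
    exact hmono _ hx2
  · have hu2 : u ≤ (N + 1) ^ 2 := by nlinarith
    have e : ((N : ℤ) + 1) ^ 2 - (u + ((x.2 : ℤ) - x.1 + h)) =
        (((N + 1) ^ 2 - u : ℕ) : ℤ) - ((x.2 : ℤ) - x.1 + h) := by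
      rw [Nat.cast_sub hu2]
      push_cast
      ring
    rw [e]
    exact hmono _ hx3

open Classical in
/-- sets with at least `M ^ (1 - κ)` elements -/
theorem sparse :
    ∀ θ η : ℝ, 0 < θ → 0 < η → η ≤ 1 → ∃ (κ : ℝ) (r : ℕ), 0 < κ ∧ ∀ ε : ℝ, 0 < ε → ∃ N₀ : ℕ,
      ∀ N M u : ℕ, N₀ ≤ N → (N : ℝ) ^ θ ≤ M → 2 ≤ u → u + 2 * M ≤ 2 * N →
      ∃ h : ℕ, (h : ℝ) ≤ (M : ℝ) ^ η ∧ ∀ (v : ℕ) (A : Finset ℕ), A ⊆ Ioc v (v + M) → (M : ℝ) ^ (1 - κ) ≤ A.card →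
        (A.card : ℝ) ^ 2 * (M : ℝ) ^ (-ε) ≤
          (((A ×ˢ A).filter (fun x => x.1 < x.2 ∧
            AlmostPrime ((N : ℝ) ^ κ) r ((N : ℤ) ^ 2 + (u + ((x.2 : ℤ) - x.1 + h)) + 1) ∧
            AlmostPrime ((N : ℝ) ^ κ) r (((N : ℤ) + 1) ^ 2 - (u + ((x.2 : ℤ) - x.1 + h))))).card : ℝ) := by
  intro θ η hθ hη hη1
  obtain ⟨κ, r, hκ, h1⟩ := Pool.Agent.H14.VC.sum_vc_win η θ hη hη1 hθ 4
  refine ⟨κ, r, hκ, ?_⟩
  intro ε hε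
  obtain ⟨N₀, hN₀⟩ := h1 ε hε
  refine ⟨max N₀ 3, ?_⟩
  intro N M u hN hM hu huM
  have hN3 : (3 : ℤ) ≤ N := by exact_mod_cast (le_max_right N₀ 3).trans hN
  have hu2 : (u : ℤ) ≤ 2 * N := by
    have : u ≤ 2 * N := by omega
    exact_mod_cast this
  have hu0 : (0 : ℤ) ≤ u := by positivity
  have hN4 : (N : ℤ) ^ 4 = N * N * (N * N) := by ring
  have hNN : 9 ≤ (N : ℤ) * N := by nlinarith
  have hNNb : 9 * ((N : ℤ) * N) ≤ (N : ℤ) ^ 4 := by rw [hN4]; nlinarith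
  obtain ⟨h, hh, hA⟩ := hN₀ N M ((le_max_left _ _).trans hN) hM (2 * ((N : ℤ) ^ 2 + N + 1)) ((N : ℤ) ^ 2 + u + 1)
    (Dvd.intro _ rfl)
    (by
      rw [abs_of_nonneg (by positivity)]
      nlinarith)
    (by
      rw [abs_le]
      constructor
      · nlinarith
      · nlinarith)
  refine ⟨h, hh, ?_⟩
  intro v A hAv hcard
  refine (hA v A hAv hcard).trans (le_of_eq ?_)
  congr 2
  apply filter_congr
  intro x _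
  have e1 : (N : ℤ) ^ 2 + u + 1 + ((x.2 : ℤ) - x.1 + h) = (N : ℤ) ^ 2 + (u + ((x.2 : ℤ) - x.1 + h)) + 1 := by ring
  have e2 : 2 * ((N : ℤ) ^ 2 + N + 1) - ((N : ℤ) ^ 2 + u + 1 + ((x.2 : ℤ) - x.1 + h)) =
      ((N : ℤ) + 1) ^ 2 - (u + ((x.2 : ℤ) - x.1 + h)) := by ring
  rw [e2, e1]
  exact Iff.rfl

open Classical in
/-- **Symmetric pairs of almost primes and difference sets.** -/
theorem result :
    -- (1) power saving: sets with at least `M ^ (1 - κ)` elements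
    (∀ θ η : ℝ, 0 < θ → 0 < η → η ≤ 1 → ∃ (κ : ℝ) (r : ℕ), 0 < κ ∧ ∀ ε : ℝ, 0 < ε → ∃ N₀ : ℕ,
      ∀ N M u : ℕ, N₀ ≤ N → (N : ℝ) ^ θ ≤ M → 2 ≤ u → u + 2 * M ≤ 2 * N →
      ∃ h : ℕ, (h : ℝ) ≤ (M : ℝ) ^ η ∧ ∀ (v : ℕ) (A : Finset ℕ), A ⊆ Ioc v (v + M) → (M : ℝ) ^ (1 - κ) ≤ A.card →
        (A.card : ℝ) ^ 2 * (M : ℝ) ^ (-ε) ≤
          (((A ×ˢ A).filter (fun x => x.1 < x.2 ∧
            AlmostPrime ((N : ℝ) ^ κ) r ((N : ℤ) ^ 2 + (u + ((x.2 : ℤ) - x.1 + h)) + 1) ∧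
            AlmostPrime ((N : ℝ) ^ κ) r (((N : ℤ) + 1) ^ 2 - (u + ((x.2 : ℤ) - x.1 + h))))).card : ℝ)) ∧
    -- (2) sets of density at least `(log M) ^ (-1 + ε)`, lower bound with the singular series
    (∀ θ : ℝ, 0 < θ → ∃ (κ : ℝ) (r : ℕ), 0 < κ ∧ ∀ ε : ℝ, 0 < ε → ∃ (C : ℝ) (N₀ : ℕ), 0 < C ∧
    ∀ N M u : ℕ, N₀ ≤ N → (N : ℝ) ^ θ ≤ M → 2 ≤ u → u + 2 * M ≤ 2 * N →
    ∀ α : ℝ, 0 < α → α ≤ 1 → Real.log M ^ (-(1 - ε)) ≤ α →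
    ∃ h : ℕ, (h : ℝ) ≤ Real.exp (C * α ^ (-(1 + ε))) ∧ h ≤ M ∧ ∀ A : Finset ℕ, A ⊆ Icc 1 M → α * M ≤ A.card →
      Real.exp (-(C * α ^ (-(1 + ε)))) * (G (N ^ 2 + N + 1) * M ^ 2 / Real.log M ^ 2) ≤
        (((A ×ˢ A).filter (fun x => x.1 < x.2 ∧
          AlmostPrime ((N : ℝ) ^ κ) r ((N : ℤ) ^ 2 + (u + ((x.2 : ℤ) - x.1 + h)) + 1) ∧
          AlmostPrime ((N : ℝ) ^ κ) r (((N : ℤ) + 1) ^ 2 - (u + ((x.2 : ℤ) - x.1 + h))))).card : ℝ)) :=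
  ⟨sparse, dense⟩

end Pool.Agent.Results.MP_e94e4b_nt.DifferenceSets
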