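import Pool.Agent.H31.GP.Gold

set_option autoImplicit false

/-!
# The digits of both members of the almost prime pairs between consecutive squares with fixed sum

Let `N` be ANY large integer. The pairs `a = N ^ 2 + k + 1`, `b = (N + 1) ^ 2 - k` with `2 ≤ k ≤ 2 N` are considered for which
neither number has a prime factor `≤ y`, where `y` is a small power of `N` (so that both of them are almost primes
with a bounded number of prime factors). Their number is the expected one. Let `q ≥ 2`, and let `T` be the power of `q` with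
`T ≤ √(2 N - 1) < q T`; of the digits of `a` in base `q` the upper half hardly varies, and `T` splits the lower half in two
halves. Let `f` and `g` be sums of at most `m` products of an arbitrary function of `n % T` and an arbitrary
function of `n / T`; functions computed by finite automata from the digits are of this kind. Then the mean value of `f (a) g (b)`
over these pairs is up to `ε` the mean value over the pairs for which neither number has a prime factor `≤ w`,
where `w` is a constant. This implies: if `m` is coprime to `q - 1`, the sum of the digits of `a`, and also the sum of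
the digits of `b`, is equidistributed modulo `m` along the almost prime pairs.

Proof. The general theorem `Pool.Agent.H31.GP.digitWin` (Cauchy's inequality, the fundamental lemma, singular series on
average) holds uniformly for all polynomials of bounded degree, with coefficients bounded by a power of the length of the
interval, and without fixed prime divisors; the reflection `n ↦ K - n` at most doubles the number of products.
-/

namespace Pool.Agent.Results.MP_e94e4b_nt.DigitsOfBothMembers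

open Finset Filter

open Classical in
/-- The integers `2 ≤ k ≤ 2 N` such that all prime factors of `N ^ 2 + k + 1` and of `(N + 1) ^ 2 - k` are larger than `y`. -/
noncomputable def rough (N y : ℕ) : Finset ℕ := (Icc 2 (2 * N)).filter (fun k => ∀ p : ℕ, p.Prime →
  p ∣ N ^ 2 + k + 1 ∨ p ∣ (N + 1) ^ 2 - k → y < p)

/-- The product over the primes `p ≤ y` of `1 - ν (p) / p`, where `ν (p)` is the number of the residue classes `a` modulo `p`
with `a = 0` or `a = 2 N ^ 2 + 2 N + 2` (the sum of the two numbers) modulo `p`. -/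
noncomputable def V (N y : ℕ) : ℝ := ∏ p ∈ (range (y + 1)).filter Nat.Prime,
  (1 - (((range p).filter (fun a => p ∣ a ∨ a ≡ 2 * N ^ 2 + 2 * N + 2 [MOD p])).card : ℝ) / p)

/-- The mean value of a function over a finite set. -/
noncomputable def mean (S : Finset ℕ) (g : ℕ → ℂ) : ℂ := (∑ n ∈ S, g n) / (S.card : ℂ)

/-- `Φ` is a sum of `m` products of a function of `n % T` and a function of `n / T`, all of modulus at most one. -/
def SplitRank (T m : ℕ) (Φ : ℕ → ℂ) : Prop := ∃ G H : Fin m → ℕ → ℂ,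
  (∀ i n, ‖G i n‖ ≤ 1) ∧ (∀ i n, ‖H i n‖ ≤ 1) ∧ ∀ n, Φ n = ∑ i, G i (n % T) * H i (n / T)

open Pool.Agent.H31 Polynomial

lemma rough_tr (N y : ℕ) (hN : 1 ≤ N) : (rough N y).map (addRightEmbedding (N ^ 2 + 1)) =
    GP.roughW (GP.PK (2 * N ^ 2 + 2 * N + 2)) y (N ^ 2 + 3) (2 * N - 1) := by
  classical
  ext n
  rw [Finset.mem_map, GP.mem_roughW]
  unfold rough
  simp only [mem_filter, mem_Icc, addRightEmbedding_apply]
  constructor
  · rintro ⟨k, ⟨h1, h2⟩, rfl⟩
    refine ⟨by omega, fun p hp hR => ?_⟩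
    rw [GP.RF_PK _ _ p hp (by nlinarith)] at hR
    apply h2 p hp
    have e1 : N ^ 2 + k + 1 = k + (N ^ 2 + 1) := by ring
    have e2 : (N + 1) ^ 2 - k = 2 * N ^ 2 + 2 * N + 2 - (k + (N ^ 2 + 1)) := by
      have : (N + 1) ^ 2 = N ^ 2 + 2 * N + 1 := by ring
      omega
    rw [e1, e2]
    exact hR
  · rintro ⟨h1, h2⟩
    refine ⟨n - (N ^ 2 + 1), ⟨by omega, fun p hp h3 => h2 p hp ?_⟩, by omega⟩
    rw [GP.RF_PK _ _ p hp (by omega)]
    have e1 : N ^ 2 + (n - (N ^ 2 + 1)) + 1 = n := by omega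
    have e2 : (N + 1) ^ 2 - (n - (N ^ 2 + 1)) = 2 * N ^ 2 + 2 * N + 2 - n := by
      have : (N + 1) ^ 2 = N ^ 2 + 2 * N + 1 := by ring
      omega
    rw [e1, e2] at h3
    exact h3

lemma V_eq (N y : ℕ) : V N y = GP.V (GP.PK (2 * N ^ 2 + 2 * N + 2)) y := by
  classical
  unfold V GP.V
  have e : (range (y + 1)).filter Nat.Prime = Pool.Agent.H373R2.T7.pz y := by
    ext p
    rw [mem_filter, mem_range, Pool.Agent.H373R2.T7.mem_pz, Nat.lt_succ_iff]
  rw [e]
  apply prod_congr rfl
  intro p hp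
  unfold GP.rh
  congr 4
  ext n
  have hp' := (Pool.Agent.H373R2.T7.mem_pz.1 hp).2
  rw [mem_filter, mem_range, GP.mem_ZF, one_mul, add_zero]
  have : GP.RF (GP.PK (2 * N ^ 2 + 2 * N + 2)) p n ↔ (p ∣ n ∨ n ≡ 2 * N ^ 2 + 2 * N + 2 [MOD p]) := by
    unfold GP.RF GP.PK
    rw [eval_mul, eval_sub, eval_X, eval_C, (Nat.prime_iff_prime_int.1 hp').dvd_mul, Int.natCast_dvd_natCast, Nat.modEq_iff_dvd]
  rw [this]

lemma sum_tr (N y : ℕ) (hN : 1 ≤ N) (g : ℕ → ℂ) : mean (rough N y) (fun k => g (k + (N ^ 2 + 1))) =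
    GP.mean (GP.roughW (GP.PK (2 * N ^ 2 + 2 * N + 2)) y (N ^ 2 + 3) (2 * N - 1)) g := by
  unfold mean GP.mean
  rw [← rough_tr N y hN, card_map, sum_map]
  rfl

theorem result :
    (∀ q m : ℕ, 2 ≤ q → 1 ≤ m → ∀ ε : ℝ, 0 < ε → ∃ w r : ℕ, 3 ≤ w ∧ ∀ᶠ N : ℕ in atTop, ∀ y : ℕ, w ≤ y → y ^ r ≤ N →
        |((rough N y).card : ℝ) - 2 * N * V N y| ≤ ε * (2 * N * V N y) ∧
        (∀ z : ℕ, w ≤ z → z ≤ y → ∀ f g : ℕ → ℂ, SplitRank (q ^ Nat.log q (Nat.sqrt (2 * N - 1))) m f →
          SplitRank (q ^ Nat.log q (Nat.sqrt (2 * N - 1))) m g →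
          ‖mean (rough N y) (fun k => f (N ^ 2 + k + 1) * g ((N + 1) ^ 2 - k)) -
            mean (rough N z) (fun k => f (N ^ 2 + k + 1) * g ((N + 1) ^ 2 - k))‖ ≤ ε) ∧
        (m.Coprime (q - 1) → ∀ a : ℕ,
          |(((rough N y).filter (fun k => (Nat.digits q (N ^ 2 + k + 1)).sum ≡ a [MOD m])).card : ℝ) / (rough N y).card - 1 / m| ≤ ε ∧
          |(((rough N y).filter (fun k => (Nat.digits q ((N + 1) ^ 2 - k)).sum ≡ a [MOD m])).card : ℝ) / (rough N y).card - 1 / m| ≤ ε)) ∧
    (∀ q : ℕ, 2 ≤ q → ∀ (σ : Type) [Fintype σ] (δ : σ → ℕ → σ) (s₀ : σ) (τ : σ → ℂ), (∀ s, ‖τ s‖ ≤ 1) → ∀ j : ℕ,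
      SplitRank (q ^ j) (Fintype.card σ + 1) (fun n => τ ((Nat.digits q n).foldl δ s₀)) ∧
      SplitRank (q ^ j) (Fintype.card σ + 1) (fun n => τ ((Nat.digits q n).reverse.foldl δ s₀))) ∧
    (∀ N j y : ℕ, (N + 1) ^ 2 < (y + 1) ^ j → ∀ k ∈ rough N y,
      (N ^ 2 + k + 1).primeFactorsList.length < j ∧ ((N + 1) ^ 2 - k).primeFactorsList.length < j) := by
  classical
  refine ⟨?_, ?_, ?_⟩
  · intro q m hq hm ε hε
    obtain ⟨w, r, hw, h⟩ := GP.goldWin q m 4 hq hm (ε / 2) (by positivity)
    refine ⟨w, r, hw, ?_⟩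
    have ht : Tendsto (fun N : ℕ => 2 * N - 1) atTop atTop := by
      apply tendsto_atTop_mono (fun n => (by omega : n - 1 ≤ 2 * n - 1))
      exact tendsto_sub_atTop_nat 1
    filter_upwards [ht.eventually h, eventually_ge_atTop 3, eventually_ge_atTop ⌈1 / ε⌉₊] with N h1 hN hNε y hwy hyr
    have hN1 : 1 ≤ N := by omega
    have hK : 2 * N ^ 2 + 2 * N + 2 ≤ (2 * N - 1) ^ 4 := by
      have h2 : N + 1 ≤ 2 * N - 1 := by omega
      have h3 : (N + 1) ^ 4 ≤ (2 * N - 1) ^ 4 := Nat.pow_le_pow_left h2 4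
      have h4 : 2 * N ^ 2 + 2 * N + 2 ≤ (N + 1) ^ 4 := by nlinarith [sq_nonneg (N : ℕ), Nat.zero_le (N ^ 3), Nat.zero_le (N ^ 4)]
      omega
    have hE : Even (2 * N ^ 2 + 2 * N + 2) := ⟨N ^ 2 + N + 1, by ring⟩
    have h2 := h1 (2 * N ^ 2 + 2 * N + 2) hE hK (N ^ 2 + 3) (by nlinarith [Nat.sub_add_cancel (show 1 ≤ 2 * N by omega)]) y hwy (by omega)
    obtain ⟨b1, b2, b3⟩ := h2
    have hcard : (GP.roughW (GP.PK (2 * N ^ 2 + 2 * N + 2)) y (N ^ 2 + 3) (2 * N - 1)).card = (rough N y).card := by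
      rw [← rough_tr N y hN1, card_map]
    have hcast : ((2 * N - 1 : ℕ) : ℝ) = 2 * N - 1 := by
      rw [Nat.cast_sub (by omega)]
      push_cast
      ring
    have hVp : 0 < V N y := by rw [V_eq]; exact GP.V_pos (GP.PK_sys _ hE) y
    have hN0 : (0 : ℝ) < N := by exact_mod_cast hN1
    refine ⟨?_, ?_, ?_⟩
    · rw [hcard, hcast, ← V_eq] at b1
      have h3 : 1 / ε ≤ N := (Nat.le_ceil _).trans (by exact_mod_cast hNε)
      rw [div_le_iff₀ hε] at h3
      have h4 : ε / 2 * ((2 * N - 1) * V N y) ≤ ε / 2 * (2 * N * V N y) := by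
        apply mul_le_mul_of_nonneg_left _ (by positivity)
        exact mul_le_mul_of_nonneg_right (by linarith) hVp.le
      have h5 : V N y ≤ ε / 2 * (2 * N * V N y) := by
        have : 1 * V N y ≤ (N * ε) * V N y := mul_le_mul_of_nonneg_right h3 hVp.le
        linarith
      obtain ⟨c1, c2⟩ := abs_le.1 b1
      rw [abs_le]
      constructor
      · linarith
      · linarith
    · intro z hwz hzy f g hf hg
      have h3 := b2 z hwz hzy f g hf hg
      rw [← sum_tr N y hN1, ← sum_tr N z hN1] at h3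
      have e : ∀ z, mean (rough N z) (fun k => f (k + (N ^ 2 + 1)) * g (2 * N ^ 2 + 2 * N + 2 - (k + (N ^ 2 + 1)))) =
          mean (rough N z) (fun k => f (N ^ 2 + k + 1) * g ((N + 1) ^ 2 - k)) := by
        intro z
        unfold mean
        congr 1
        apply sum_congr rfl
        intro k hk
        unfold rough at hk
        rw [mem_filter, mem_Icc] at hk
        have e1 : k + (N ^ 2 + 1) = N ^ 2 + k + 1 := by ring
        have e2 : 2 * N ^ 2 + 2 * N + 2 - (N ^ 2 + k + 1) = (N + 1) ^ 2 - k := by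
          have : (N + 1) ^ 2 = N ^ 2 + 2 * N + 1 := by ring
          omega
        beta_reduce
        rw [e1, e2]
      rw [e, e] at h3
      linarith
    · intro hcop a
      have h3 := b3 hcop a
      rw [hcard, ← rough_tr N y hN1, filter_map, card_map, filter_map, card_map] at h3
      have e1 : (rough N y).filter ((fun n => (Nat.digits q n).sum ≡ a [MOD m]) ∘ (addRightEmbedding (N ^ 2 + 1))) =
          (rough N y).filter (fun k => (Nat.digits q (N ^ 2 + k + 1)).sum ≡ a [MOD m]) := by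
        apply filter_congr
        intro k _
        simp only [Function.comp, addRightEmbedding_apply]
        have e1 : k + (N ^ 2 + 1) = N ^ 2 + k + 1 := by ring
        rw [e1]
      have e2 : (rough N y).filter ((fun n => (Nat.digits q (2 * N ^ 2 + 2 * N + 2 - n)).sum ≡ a [MOD m]) ∘ (addRightEmbedding (N ^ 2 + 1))) =
          (rough N y).filter (fun k => (Nat.digits q ((N + 1) ^ 2 - k)).sum ≡ a [MOD m]) := by
        apply filter_congr
        intro k hk
        unfold rough at hk
        rw [mem_filter, mem_Icc] at hk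
        simp only [Function.comp, addRightEmbedding_apply]
        have e1 : 2 * N ^ 2 + 2 * N + 2 - (k + (N ^ 2 + 1)) = (N + 1) ^ 2 - k := by
          have : (N + 1) ^ 2 = N ^ 2 + 2 * N + 1 := by ring
          omega
        rw [e1]
      rw [e1, e2] at h3
      exact ⟨h3.1.trans (by linarith), h3.2.trans (by linarith)⟩
  · intro q hq σ _ δ s₀ τ hτ j
    exact ⟨DG.aut_low q (by omega) δ s₀ τ hτ j, DG.aut_high q (by omega) δ s₀ τ hτ j⟩
  · intro N j y hj k hk
    unfold rough at hk
    rw [mem_filter, mem_Icc] at hk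
    obtain ⟨⟨hk1, hk2⟩, hk3⟩ := hk
    have e : (N + 1) ^ 2 = N ^ 2 + 2 * N + 1 := by ring
    have key : ∀ x : ℕ, 0 < x → x ≤ (N + 1) ^ 2 → (∀ p : ℕ, p.Prime → p ∣ x → y < p) → x.primeFactorsList.length < j := by
      intro x hx0 hx hxp
      have h1 : (y + 1) ^ x.primeFactorsList.length ≤ x := by
        conv_rhs => rw [← Nat.prod_primeFactorsList hx0.ne']
        apply List.pow_card_le_prod
        intro p hp
        exact hxp p (Nat.prime_of_mem_primeFactorsList hp) (Nat.dvd_of_mem_primeFactorsList hp)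
      by_contra h2
      push Not at h2
      have h3 : (y + 1) ^ j ≤ x := le_trans (Nat.pow_le_pow_right (by omega) h2) h1
      omega
    exact ⟨key _ (by omega) (by omega) (fun p hp hd => hk3 p hp (Or.inl hd)), key _ (by omega) (by omega) (fun p hp hd => hk3 p hp (Or.inr hd))⟩

end Pool.Agent.Results.MP_e94e4b_nt.DigitsOfBothMembers
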