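import Pool.Agent.H79.V.Fn

set_option autoImplicit false

/-!
# Prime pairs between consecutive squares: all windows of length `N^(3/2) (log N)^C` for almost all `N`

For every `A` there is `C` such that for all but at most `X / (log X)^A` of the integers `N` in `(X, 2 X]` the number of
the `k` in `(u, v]` for which `N² + k + 1` and `(N + 1)² - k` are both prime is equal to the number predicted by Hardy and
Littlewood, up to the error `(v - u) / (log N)^A`, for ALL windows with `v - u ≥ N^(3/2) (log N)^C`, `v ≤ N² / 2` and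
`u ≤ (v - u) (log N)^A` simultaneously. In particular there is `k` with `2 ≤ k ≤ N^(3/2) (log N)^C` for which both numbers
are prime (the problem asks for `k ≤ 2 N`, the trivial range is `k ≤ N²`).

Proof. The centre `(2 N² + 2 N + 2) / 2` moves along a quadratic sequence. The integers `N` are divided into blocks of
length `Y = h / X` (`h` the length of the window up to a power of the logarithm), so that the centres of one block lie in
an interval of length `h`. The error `Λ - Λ_E` (`Λ_E` the sieve model) has, in almost all of the windows in question,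
exponential sums that are smaller than the length by any power of the logarithm, uniformly in the frequency
(`Pool.Agent.H79.V.Bl.blocks`: Heath-Brown's identity, bilinear sums for the minor arcs and the theorem on primes in
progressions in almost all short intervals on the major arcs). The sum over the `N` of a block of the differences of the
two counts is the integral of the product of two exponential sums over primes and of the quadratic exponential sum of
the block `A`. By Hölder's inequality it is bounded by the supremum of the first sum, by the mean squares of the two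
first sums and by the sixth moment of `A`, which is at most `Y³ (log Y)^c` (`Pool.Agent.H79.V.Six`: divisor bounds for
the number of the solutions of the system). The main term is the singular series for the sieve model on windows.
-/

namespace Pool.Agent.Results.MP_e94e4b_nt.WindowsThreeHalves

open Finset

/-- the number of the `k` in `(u, v]` for which `N² + k + 1` and `(N + 1)² - k` are both prime -/
def pairs (N u v : ℕ) : ℕ :=
  ((Ioc u v).filter (fun k => (N ^ 2 + k + 1).Prime ∧ ((N + 1) ^ 2 - k).Prime)).card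

/-- the factor of the singular series at `p`; `2 N² + 2 N + 2` is the sum of the two numbers -/
noncomputable def factor (N p : ℕ) : ℝ :=
  (1 - (if p ∣ 2 * N ^ 2 + 2 * N + 2 then 1 else 2 : ℝ) / p) / (1 - 1 / (p : ℝ)) ^ 2

/-- the singular series, the product of the factors over all primes -/
noncomputable def singular (N : ℕ) : ℝ := ∏' p : Nat.Primes, factor N p

/-- the number predicted by Hardy and Littlewood -/
noncomputable def predicted (N u v : ℕ) : ℝ :=
  singular N * ∑ k ∈ Ioc u v, 1 / (Real.log ((N : ℝ) ^ 2 + k + 1) * Real.log (((N : ℝ) + 1) ^ 2 - k))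

/-- The statement for one `N`: there is `k` with `2 ≤ k ≤ N^(3/2) (log N)^C` for which both numbers are prime; and the
number of these `k` is as predicted, up to the error `(v - u) / (log N)^A`, in all windows `(u, v]` of length at least
`N^(3/2) (log N)^C` with `2 v ≤ N²` and `u ≤ (v - u) (log N)^A`. -/
def Holds (A C N : ℕ) : Prop :=
  (∃ k : ℕ, 2 ≤ k ∧ (k : ℝ) ≤ (N : ℝ) ^ (3 / 2 : ℝ) * Real.log N ^ C ∧ (N ^ 2 + k + 1).Prime ∧ ((N + 1) ^ 2 - k).Prime) ∧
  ∀ u v : ℕ, u < v → 2 * v ≤ N ^ 2 → (N : ℝ) ^ (3 / 2 : ℝ) * Real.log N ^ C ≤ (v : ℝ) - u →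
    (u : ℝ) ≤ ((v : ℝ) - u) * Real.log N ^ A →
    |(pairs N u v : ℝ) - predicted N u v| ≤ ((v : ℝ) - u) / Real.log N ^ A

lemma pairs_eq (N u v : ℕ) : H79.V.cc (H79.V.PN N) (N ^ 2 + 1 + u) (N ^ 2 + 1 + v) = pairs N u v := by
  unfold H79.V.cc H79.V.PN pairs
  symm
  refine card_bij (fun k _ => N ^ 2 + 1 + k) ?_ ?_ ?_
  · intro k hk
    rw [mem_filter, mem_Ioc] at hk
    obtain ⟨⟨h1, h2⟩, h3, h4⟩ := hk
    rw [mem_filter, mem_Ioc]
    refine ⟨⟨by omega, by omega⟩, ?_, ?_⟩
    · have e1 : N ^ 2 + 1 + k = N ^ 2 + k + 1 := by ring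
      rw [e1]; exact h3
    · have e1 : 2 * N ^ 2 + 2 * N + 2 - (N ^ 2 + 1 + k) = (N + 1) ^ 2 - k := by
        have : (N + 1) ^ 2 = N ^ 2 + 2 * N + 1 := by ring
        omega
      rw [e1]; exact h4
  · intro a _ b _ h
    simpa using h
  · intro m hm
    rw [mem_filter, mem_Ioc] at hm
    obtain ⟨⟨h1, h2⟩, h3, h4⟩ := hm
    refine ⟨m - (N ^ 2 + 1), ?_, by omega⟩
    rw [mem_filter, mem_Ioc]
    refine ⟨⟨by omega, by omega⟩, ?_, ?_⟩
    · have e1 : N ^ 2 + (m - (N ^ 2 + 1)) + 1 = m := by omega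
      rw [e1]; exact h3
    · have e1 : (N + 1) ^ 2 - (m - (N ^ 2 + 1)) = 2 * N ^ 2 + 2 * N + 2 - m := by
        have : (N + 1) ^ 2 = N ^ 2 + 2 * N + 1 := by ring
        omega
      rw [e1]; exact h4

lemma sum_eq (N u v : ℕ) (hv : v ≤ (N + 1) ^ 2) :
    ∑ m ∈ Ioc (N ^ 2 + 1 + u) (N ^ 2 + 1 + v), H79.V.wt (H79.V.PN N) m =
      ∑ k ∈ Ioc u v, 1 / (Real.log ((N : ℝ) ^ 2 + k + 1) * Real.log (((N : ℝ) + 1) ^ 2 - k)) := by
  symm
  refine sum_bij (fun k _ => N ^ 2 + 1 + k) ?_ ?_ ?_ ?_
  · intro k hk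
    rw [mem_Ioc] at hk ⊢
    omega
  · intro a _ b _ h
    simpa using h
  · intro m hm
    rw [mem_Ioc] at hm
    exact ⟨m - (N ^ 2 + 1), by rw [mem_Ioc]; omega, by omega⟩
  · intro k hk
    rw [mem_Ioc] at hk
    unfold H79.V.wt H79.V.PN
    have e1 : 2 * N ^ 2 + 2 * N + 2 - (N ^ 2 + 1 + k) = (N + 1) ^ 2 - k := by
      have : (N + 1) ^ 2 = N ^ 2 + 2 * N + 1 := by ring
      omega
    rw [e1, Nat.cast_sub (by omega)]
    push_cast
    rw [show (N : ℝ) ^ 2 + 1 + k = (N : ℝ) ^ 2 + k + 1 by ring]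

lemma singular_eq (N : ℕ) : singular N = H79.V.sgP (H79.V.PN N) := rfl

/-- The singular series is at least a positive constant (and the product converges absolutely), and for all but at most
`X / (log X)^A` of the `N` in `(X, 2 X]` the statement `Holds` is true. -/
theorem result :
    (∃ c : ℝ, 0 < c ∧ ∀ N : ℕ, c ≤ singular N ∧ Multipliable (fun p : Nat.Primes => factor N p)) ∧
    ∀ A : ℕ, ∃ C X₀ : ℕ, ∀ X : ℕ, X₀ ≤ X →
      (Set.ncard {N : ℕ | X < N ∧ N ≤ 2 * X ∧ ¬ Holds A C N} : ℝ) ≤ X / Real.log X ^ A := by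
  obtain ⟨c, hc, hsg⟩ := H79.V.sgP_low
  have hlow : ∀ N : ℕ, c ≤ singular N ∧ Multipliable (fun p : Nat.Primes => factor N p) := by
    intro N
    exact hsg (H79.V.PN N) (by unfold H79.V.PN; omega) ⟨N ^ 2 + N + 1, by unfold H79.V.PN; ring⟩
  refine ⟨⟨c, hc, hlow⟩, ?_⟩
  classical
  intro A
  obtain ⟨C, X₁, h1⟩ := H79.V.main (A + 3)
  -- the size conditions
  obtain ⟨X₂, h2⟩ := H373R2.T7.ev_L' (100 + 200 / c)
  obtain ⟨X₃, h3⟩ := H373R2.T7.ev_log' (C + 1) 1000
  refine ⟨C + 1, max X₁ (max X₂ (max X₃ 16)), ?_⟩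
  intro X hX
  have c1 : X₁ ≤ X := (le_max_left _ _).trans hX
  have c2 : X₂ ≤ X := ((le_max_left _ _).trans (le_max_right _ _)).trans hX
  have c3 : X₃ ≤ X := ((le_max_left _ _).trans ((le_max_right _ _).trans (le_max_right _ _))).trans hX
  have c4 : 16 ≤ X := ((le_max_right _ _).trans ((le_max_right _ _).trans (le_max_right _ _))).trans hX
  have hLX : 1 ≤ Real.log X := by
    have := h2 X c2
    have : 0 < 200 / c := by positivity
    linarith
  have hkey : ∀ N : ℕ, X < N → N ≤ 2 * X → H79.V.Wd (A + 3) C N → Holds A (C + 1) N := by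
    intro N hN1 hN2 hW
    have hL := h2 N (c2.trans hN1.le)
    have hroot := h3 N (c3.trans hN1.le)
    set L : ℝ := Real.log N with hLdef
    have hcpos : 0 < 200 / c := by positivity
    have hL1 : (100 : ℝ) ≤ L := by linarith
    have hL0 : 0 < L := by linarith
    have hN16 : (16 : ℝ) ≤ N := by exact_mod_cast (by omega : 16 ≤ N)
    have hN0 : (0 : ℝ) < N := by linarith
    have hwin : ∀ u v : ℕ, u < v → 2 * v ≤ N ^ 2 → (N : ℝ) ^ (3 / 2 : ℝ) * L ^ C ≤ (v : ℝ) - u →
        (u : ℝ) ≤ ((v : ℝ) - u) * L ^ A → |(pairs N u v : ℝ) - predicted N u v| ≤ ((v : ℝ) - u) / L ^ (A + 3) := by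
      intro u v huv hv hlen hu
      have huv' : (0 : ℝ) < (v : ℝ) - u := by
        have : (u : ℝ) < v := by exact_mod_cast huv
        linarith
      have e1 := hW u v huv hv hlen (by
        refine hu.trans ?_
        apply mul_le_mul_of_nonneg_left _ huv'.le
        exact pow_le_pow_right₀ (by linarith) (by omega))
      rw [pairs_eq, sum_eq N u v (by nlinarith)] at e1
      exact e1
    have hrt : (N : ℝ) ^ (3 / 2 : ℝ) = N * √(N : ℝ) := by
      rw [Real.sqrt_eq_rpow, ← Real.rpow_one_add' hN0.le (by norm_num)]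
      norm_num
    have hbig : (N : ℝ) ^ (3 / 2 : ℝ) * L ^ (C + 1) ≤ (N : ℝ) ^ 2 / 1000 := by
      rw [hrt, le_div_iff₀ (by norm_num)]
      calc (N : ℝ) * √(N : ℝ) * L ^ (C + 1) * 1000 = N * √(N : ℝ) * (1000 * L ^ (C + 1)) := by ring
        _ ≤ N * √(N : ℝ) * √(N : ℝ) := by gcongr
        _ = N * (√(N : ℝ) * √(N : ℝ)) := by ring
        _ = (N : ℝ) ^ 2 := by rw [Real.mul_self_sqrt hN0.le]; ring
    constructor
    · -- existence
      set v : ℕ := ⌊(N : ℝ) ^ (3 / 2 : ℝ) * L ^ (C + 1)⌋₊ with hv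
      have hpos : (0 : ℝ) ≤ (N : ℝ) ^ (3 / 2 : ℝ) * L ^ (C + 1) := by positivity
      have hv1 : (v : ℝ) ≤ (N : ℝ) ^ (3 / 2 : ℝ) * L ^ (C + 1) := Nat.floor_le hpos
      have hv2 : (N : ℝ) ^ (3 / 2 : ℝ) * L ^ (C + 1) < v + 1 := Nat.lt_floor_add_one _
      have hone : (1 : ℝ) ≤ (N : ℝ) ^ (3 / 2 : ℝ) * L ^ C := by
        have e1 : (1 : ℝ) ≤ (N : ℝ) ^ (3 / 2 : ℝ) := Real.one_le_rpow (by linarith) (by norm_num)
        have e2 : (1 : ℝ) ≤ L ^ C := one_le_pow₀ (by linarith)
        exact one_le_mul_of_one_le_of_one_le e1 e2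
      have hv3 : (N : ℝ) ^ (3 / 2 : ℝ) * L ^ C * 100 ≤ v + 1 := by
        have e1 : (N : ℝ) ^ (3 / 2 : ℝ) * L ^ C * 100 ≤ (N : ℝ) ^ (3 / 2 : ℝ) * L ^ C * L := by gcongr
        have e2 : (N : ℝ) ^ (3 / 2 : ℝ) * L ^ C * L = (N : ℝ) ^ (3 / 2 : ℝ) * L ^ (C + 1) := by ring
        linarith
      have hv4 : (98 : ℝ) ≤ (v : ℝ) - 1 := by linarith
      have hvN : 2 * v ≤ N ^ 2 := by
        have : (2 * v : ℝ) ≤ (N : ℝ) ^ 2 := by nlinarith
        exact_mod_cast this
      have h1v : 1 < v := by
        have : (1 : ℝ) < v := by linarith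
        exact_mod_cast this
      have e1 := hwin 1 v h1v hvN (by push_cast; linarith) (by
        push_cast
        have : (1 : ℝ) ≤ L ^ A := one_le_pow₀ (by linarith)
        nlinarith)
      push_cast at e1
      -- lower bound for the prediction
      have hlg : ∀ x : ℝ, 3 ≤ x → x ≤ (N : ℝ) ^ 3 → 0 < Real.log x ∧ Real.log x ≤ 3 * L := by
        intro x h3x hx3
        refine ⟨Real.log_pos (by linarith), ?_⟩
        have e1 := Real.log_le_log (by linarith) hx3
        rw [Real.log_pow] at e1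
        push_cast at e1
        exact e1
      have hN3 : 3 * (N : ℝ) ^ 2 ≤ (N : ℝ) ^ 3 := by nlinarith
      have e2 : c * (((v : ℝ) - 1) / (9 * L ^ 2)) ≤ predicted N 1 v := by
        unfold predicted
        have f1 : ((v : ℝ) - 1) / (9 * L ^ 2) ≤
            ∑ k ∈ Ioc 1 v, 1 / (Real.log ((N : ℝ) ^ 2 + k + 1) * Real.log (((N : ℝ) + 1) ^ 2 - k)) := by
          have f2 : ∀ k ∈ Ioc 1 v, 1 / (9 * L ^ 2) ≤
              1 / (Real.log ((N : ℝ) ^ 2 + k + 1) * Real.log (((N : ℝ) + 1) ^ 2 - k)) := by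
            intro k hk
            rw [mem_Ioc] at hk
            have g1 : (k : ℝ) ≤ v := by exact_mod_cast hk.2
            have g2 : (0 : ℝ) ≤ k := Nat.cast_nonneg k
            have g3 : (v : ℝ) ≤ (N : ℝ) ^ 2 / 2 := by linarith
            have g4 : (0 : ℝ) < (N : ℝ) ^ 2 := by positivity
            have g5 : (256 : ℝ) ≤ (N : ℝ) ^ 2 := by nlinarith
            obtain ⟨p1, p2⟩ := hlg ((N : ℝ) ^ 2 + k + 1) (by linarith) (by nlinarith)
            obtain ⟨p3, p4⟩ := hlg (((N : ℝ) + 1) ^ 2 - k) (by nlinarith) (by nlinarith)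
            apply one_div_le_one_div_of_le (mul_pos p1 p3)
            calc Real.log ((N : ℝ) ^ 2 + k + 1) * Real.log (((N : ℝ) + 1) ^ 2 - k) ≤ (3 * L) * (3 * L) :=
                  mul_le_mul p2 p4 p3.le (by positivity)
              _ = 9 * L ^ 2 := by ring
          refine le_trans ?_ (sum_le_sum f2)
          rw [sum_const, Nat.card_Ioc, nsmul_eq_mul, Nat.cast_sub (by omega)]
          push_cast
          apply le_of_eq
          ring
        exact mul_le_mul (hlow N).1 f1 (by
          apply div_nonneg (by linarith) (by positivity)) (hc.le.trans (hlow N).1)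
      have e3 : (0 : ℝ) < pairs N 1 v := by
        have f1 := (abs_le.1 e1).1
        have f2 : ((v : ℝ) - 1) / L ^ (A + 3) ≤ ((v : ℝ) - 1) / L ^ 3 := by
          apply div_le_div_of_nonneg_left (by linarith) (by positivity)
          exact pow_le_pow_right₀ (by linarith) (by omega)
        have f3 : 200 ≤ c * L := by
          have : 200 / c ≤ L := by linarith
          rw [div_le_iff₀ hc] at this
          linarith
        have f4 : ((v : ℝ) - 1) / L ^ 3 < c * (((v : ℝ) - 1) / (9 * L ^ 2)) := by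
          have g1 : c * (((v : ℝ) - 1) / (9 * L ^ 2)) = ((v : ℝ) - 1) / L ^ 3 * (c * L / 9) := by
            field_simp
          rw [g1]
          have g2 : 0 < ((v : ℝ) - 1) / L ^ 3 := div_pos (by linarith) (by positivity)
          nlinarith
        linarith
      have e4 : 0 < pairs N 1 v := by exact_mod_cast e3
      unfold pairs at e4
      rw [card_pos] at e4
      obtain ⟨k, hk⟩ := e4
      rw [mem_filter, mem_Ioc] at hk
      refine ⟨k, by omega, ?_, hk.2.1, hk.2.2⟩
      have : (k : ℝ) ≤ v := by exact_mod_cast hk.1.2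
      linarith
    · intro u v huv hv hlen hu
      have huv' : (0 : ℝ) < (v : ℝ) - u := by
        have : (u : ℝ) < v := by exact_mod_cast huv
        linarith
      refine (hwin u v huv hv ?_ hu).trans ?_
      · refine le_trans ?_ hlen
        apply mul_le_mul_of_nonneg_left _ (by positivity)
        exact pow_le_pow_right₀ (by linarith) (by omega)
      · apply div_le_div_of_nonneg_left huv'.le (by positivity)
        exact pow_le_pow_right₀ (by linarith) (by omega)
  have hsub : {N : ℕ | X < N ∧ N ≤ 2 * X ∧ ¬ Holds A (C + 1) N} ⊆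
      (((Ioc X (2 * X)).filter (fun N => ¬ H79.V.Wd (A + 3) C N) : Finset ℕ) : Set ℕ) := by
    intro N hN
    rw [Set.mem_ofPred_eq] at hN
    rw [mem_coe, mem_filter, mem_Ioc]
    exact ⟨⟨hN.1, hN.2.1⟩, fun h => hN.2.2 (hkey N hN.1 hN.2.1 h)⟩
  have e1 := Set.ncard_le_ncard hsub (Finset.finite_toSet _)
  rw [Set.ncard_coe_finset] at e1
  have e2 : (Set.ncard {N : ℕ | X < N ∧ N ≤ 2 * X ∧ ¬ Holds A (C + 1) N} : ℝ) ≤
      (((Ioc X (2 * X)).filter (fun N => ¬ H79.V.Wd (A + 3) C N)).card : ℝ) := by exact_mod_cast e1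
  have e3 := h1 X c1
  refine e2.trans ((le_trans (le_of_eq (by congr!)) e3).trans ?_)
  apply div_le_div_of_nonneg_left (by positivity) (by positivity)
  exact pow_le_pow_right₀ hLX (by omega)

end Pool.Agent.Results.MP_e94e4b_nt.WindowsThreeHalves
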